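import Pool.Agent.H98.ABCR.Stmts

set_option autoImplicit false

/-!
# ABCR, module MUL: multiplicities of `w(T^k)` at nonzero points
-/

namespace Pool.Agent.H98.ABCR

open Finset Polynomial

theorem mul_thm : S_MUL := by
  intro k m w t hk ht hw hdvd
  obtain ⟨w0, hw0, hnd⟩ := exists_eq_pow_rootMultiplicity_mul_and_not_dvd w hw (t ^ k)
  obtain ⟨j, hj⟩ : ∃ j, j = rootMultiplicity (t ^ k) w := ⟨_, rfl⟩
  rw [← hj] at hw0
  have hw0' : w0 ≠ 0 := by
    rintro rfl
    exact hnd (dvd_zero _)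
  -- the polynomial `X^k - t^k`
  have hP : (X ^ k - C (t ^ k) : ℝ[X]) ≠ 0 := X_pow_sub_C_ne_zero hk _
  have hPm : rootMultiplicity t (X ^ k - C (t ^ k) : ℝ[X]) ≤ 1 := by
    by_contra hcon
    push Not at hcon
    rw [one_lt_rootMultiplicity_iff_isRoot hP] at hcon
    have h := hcon.2
    rw [derivative_sub, derivative_X_pow, derivative_C, sub_zero, IsRoot, eval_mul,
      eval_pow, eval_X] at h
    simp only [map_natCast, eval_natCast] at h
    rcases mul_eq_zero.1 h with h1 | h1
    · exact hk.ne' (by exact_mod_cast h1)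
    · exact ht (by
        rcases Nat.eq_zero_or_pos (k - 1) with h2 | h2
        · rw [h2, pow_zero] at h1
          exact absurd h1 one_ne_zero
        · exact (pow_eq_zero_iff h2.ne').1 h1)
  have hE0 : expand ℝ k w0 ≠ 0 := (expand_ne_zero hk).2 hw0'
  have hEm : rootMultiplicity t (expand ℝ k w0) = 0 := by
    apply rootMultiplicity_eq_zero
    intro h
    apply hnd
    rw [dvd_iff_isRoot]
    rw [IsRoot, expand_eval] at h
    exact h
  have hexp : expand ℝ k w = (X ^ k - C (t ^ k)) ^ j * expand ℝ k w0 := by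
    conv_lhs => rw [hw0]
    rw [map_mul, map_pow, map_sub, expand_X, expand_C]
  have hne : (X ^ k - C (t ^ k) : ℝ[X]) ^ j * expand ℝ k w0 ≠ 0 :=
    mul_ne_zero (pow_ne_zero _ hP) hE0
  rw [hexp, ← le_rootMultiplicity_iff hne, rootMultiplicity_mul hne, hEm, add_zero] at hdvd
  have hpow : rootMultiplicity t ((X ^ k - C (t ^ k) : ℝ[X]) ^ j) ≤ j := by
    clear hdvd hne hexp hj hw0
    induction j with
    | zero =>
      rw [pow_zero, show (1 : ℝ[X]) = C 1 from C_1.symm, rootMultiplicity_C]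
    | succ j ih =>
      rw [pow_succ, rootMultiplicity_mul (mul_ne_zero (pow_ne_zero _ hP) hP)]
      omega
  have hmj : m ≤ j := hdvd.trans hpow
  rw [hw0]
  exact (pow_dvd_pow _ hmj).mul_right _

end Pool.Agent.H98.ABCR
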